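import Pool.Agent.Helper35.HSF.StA

/-!
# Project HSF (MP_925021_gt), module AFC: the complement of a finite set in a connected manifold
-/

set_option autoImplicit false

namespace Helper10.HSF

open Helper35.HSF Helper35.MS Helper35.PI Helper35.PI2 Helper32.CL
open scoped Topology
open Set Filter Metric

/-- removing one point -/
private theorem key {M : Type} [TopologicalSpace M] (W : Set M) (hW : IsOpen W)
    (hWc : IsPreconnected W) (p : M) (hp : IsClosed ({p} : Set M)) (U : Set M) (hU : IsOpen U)
    (hpU : p ∈ U) (hUW : U ⊆ W) (hUp : IsPreconnected (U \ {p})) :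
    IsPreconnected (W \ {p}) := by
  have main : ∀ A B : Set M, IsOpen A → IsOpen B → Disjoint A B → W \ {p} ⊆ A ∪ B →
      A ⊆ W \ {p} → B ⊆ W \ {p} → A.Nonempty → B.Nonempty → U \ {p} ⊆ A → False := by
    intro A B hA hB hAB hcov hAW hBW hAn hBn hUA
    have hc : W ⊆ (A ∪ U) ∪ B := by
      intro x hx
      by_cases hxp : x = p
      · exact Or.inl (Or.inr (hxp ▸ hpU))
      · rcases hcov ⟨hx, hxp⟩ with h | h
        · exact Or.inl (Or.inl h)
        · exact Or.inr h
    obtain ⟨a, ha⟩ := hAn
    obtain ⟨b, hb⟩ := hBn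
    obtain ⟨x, hx, hx1, hx2⟩ := hWc (A ∪ U) B (hA.union hU) hB hc
      ⟨a, (hAW ha).1, Or.inl ha⟩ ⟨b, (hBW hb).1, hb⟩
    have hxp : x ≠ p := (hBW hx2).2
    rcases hx1 with h | h
    · exact Set.disjoint_left.1 hAB h hx2
    · exact Set.disjoint_left.1 hAB (hUA ⟨h, hxp⟩) hx2
  have hWp : IsOpen (W \ {p}) := hW.sdiff hp
  intro u v hu hv huv hu1 hv1
  by_contra hcon
  have hAB : Disjoint ((W \ {p}) ∩ u) ((W \ {p}) ∩ v) := by
    rw [Set.disjoint_left]
    rintro x ⟨hx, hxu⟩ ⟨_, hxv⟩
    exact hcon ⟨x, hx, hxu, hxv⟩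
  have hcov : W \ {p} ⊆ ((W \ {p}) ∩ u) ∪ ((W \ {p}) ∩ v) := by
    intro x hx
    rcases huv hx with h | h
    · exact Or.inl ⟨hx, h⟩
    · exact Or.inr ⟨hx, h⟩
  have hsub : U \ {p} ⊆ W \ {p} := fun x hx => ⟨hUW hx.1, hx.2⟩
  rcases IsPreconnected.subset_or_subset (hWp.inter hu) (hWp.inter hv) hAB (hsub.trans hcov) hUp
    with h | h
  · exact main _ _ (hWp.inter hu) (hWp.inter hv) hAB hcov inter_subset_left inter_subset_left
      hu1 hv1 h
  · exact main _ _ (hWp.inter hv) (hWp.inter hu) hAB.symm (by rw [union_comm]; exact hcov)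
      inter_subset_left inter_subset_left hv1 hu1 h

/-- punctured neighbourhoods -/
private theorem nbh {n : ℕ} (hn : 2 ≤ n) {M : Type} [TopologicalSpace M]
    [ChartedSpace (EE n) M] (W : Set M) (hW : IsOpen W) (p : M) (hp : p ∈ W) :
    ∃ U : Set M, IsOpen U ∧ p ∈ U ∧ U ⊆ W ∧ IsPreconnected (U \ {p}) := by
  set e := chartAt (EE n) p with he
  have hps : p ∈ e.source := mem_chart_source _ p
  have hV : IsOpen (e.target ∩ e.symm ⁻¹' W) :=
    e.symm.continuousOn.isOpen_inter_preimage e.open_target hW
  have hpV : e p ∈ e.target ∩ e.symm ⁻¹' W := by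
    refine ⟨e.map_source hps, ?_⟩
    rw [mem_preimage, e.left_inv hps]
    exact hp
  obtain ⟨r, hr, hball⟩ := Metric.isOpen_iff.1 hV (e p) hpV
  have hbt : ball (e p) r ⊆ e.target := fun x hx => (hball hx).1
  have hrank : 1 < Module.rank ℝ (EE n) := by
    rw [← Module.finrank_eq_rank]
    rw [finrank_euclideanSpace_fin]
    exact_mod_cast (by omega : 1 < n)
  let b := OpenPartialHomeomorph.univBall (e p) r
  have hb_inj : Function.Injective b := by
    have h := b.injOn
    rw [show b.source = univ from OpenPartialHomeomorph.univBall_source _ _] at h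
    exact fun x y hxy => h (mem_univ _) (mem_univ _) hxy
  have hb_im : b '' univ = ball (e p) r := by
    have h := b.image_source_eq_target
    rw [show b.source = univ from OpenPartialHomeomorph.univBall_source _ _,
      show b.target = ball (e p) r from OpenPartialHomeomorph.univBall_target _ hr] at h
    exact h
  have hb0 : b 0 = e p := OpenPartialHomeomorph.univBall_apply_zero _ _
  have hbc : Continuous b := OpenPartialHomeomorph.continuous_univBall _ _
  have hbmem : ∀ x, b x ∈ ball (e p) r := fun x => hb_im ▸ mem_image_of_mem b (mem_univ x)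
  refine ⟨e.symm '' ball (e p) r, e.isOpen_image_symm_of_subset_target isOpen_ball hbt, ?_, ?_, ?_⟩
  · exact ⟨e p, mem_ball_self hr, e.left_inv hps⟩
  · rintro _ ⟨x, hx, rfl⟩
    exact (hball hx).2
  · have heq : (e.symm '' ball (e p) r) \ {p} = (fun x => e.symm (b x)) '' {0}ᶜ := by
      ext y
      constructor
      · rintro ⟨⟨x, hx, rfl⟩, hy⟩
        rw [← hb_im] at hx
        obtain ⟨z, -, rfl⟩ := hx
        refine ⟨z, ?_, rfl⟩
        intro hz
        rw [mem_singleton_iff] at hz
        apply hy
        rw [hz, hb0, mem_singleton_iff]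
        exact e.left_inv hps
      · rintro ⟨z, hz, rfl⟩
        refine ⟨⟨b z, hbmem z, rfl⟩, ?_⟩
        intro h
        rw [mem_singleton_iff] at h
        apply hz
        rw [mem_singleton_iff]
        apply hb_inj
        rw [hb0]
        have h1 := congrArg e h
        simp only [] at h1
        rw [e.right_inv (hbt (hbmem z))] at h1
        exact h1
    rw [heq]
    refine (isConnected_compl_singleton_of_one_lt_rank hrank (0 : EE n)).isPreconnected.image _ ?_
    exact (e.symm.continuousOn.comp hbc.continuousOn fun x _ => hbt (hbmem x))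

/-- AFC: the complement of a finite set in a connected manifold of dimension at least two is
connected. -/
theorem hAFC : StAFC := by
  intro n hn M _ _ _ _ E hE
  induction E, hE using Set.Finite.induction_on with
  | empty =>
    rw [compl_empty]
    exact isPreconnected_univ
  | @insert p E' hp hE' ih =>
    obtain ⟨U, hU, hpU, hUW, hUp⟩ := nbh hn E'ᶜ hE'.isClosed.isOpen_compl p hp
    have h := key E'ᶜ hE'.isClosed.isOpen_compl ih p isClosed_singleton U hU hpU hUW hUp
    have e : (insert p E')ᶜ = E'ᶜ \ {p} := by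
      ext x
      simp only [mem_compl_iff, mem_insert_iff, not_or, Set.mem_sdiff, mem_singleton_iff]
      exact and_comm
    rw [e]
    exact h

end Helper10.HSF
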