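import Pool.Agent.Helper35.HSF.StF

/-! Module FGT of the project HSF: good times (mean value theorem). -/

set_option autoImplicit false

namespace Helper10.HSF

open Helper35.HSF Helper35.MS Helper35.PI Helper35.PI2 Helper32.CL
open scoped ContDiff Manifold Topology ENNReal BigOperators
open MeasureTheory Set Filter

/-- the real variable argument -/
private theorem good_times (ts T α K K' N : ℝ) (L v : ℝ → ℝ) (hts : ts < T) (hα : 0 < α)
    (hN : 0 < N)
    (h1 : ∀ t ∈ Ico ts T, 0 ≤ v t ∧ ∃ D, HasDerivAt L D t ∧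
      D ≤ -(N * v t) + K * (T - t) ^ (α - 1))
    (hK : 0 < K)
    (h2 : ∀ t ∈ Ico ts T, -K' ≤ L t) (δ η : ℝ) (hδ : 0 < δ) (hδ4 : δ ≤ 1 / 4) (hη : 0 < η) :
    ∃ t₂ ∈ Ico ts T, ∀ t ∈ Ico t₂ T, ∃ t' ∈ Icc (t - 2 * δ * (T - t)) (t - δ * (T - t)),
      ts ≤ t' ∧ (T - t) * v t' ≤ η := by
  obtain ⟨Q, hQ⟩ : ∃ Q : ℝ → ℝ, Q = fun t => L t + K / α * (T - t) ^ α := ⟨_, rfl⟩
  have hd : ∀ t ∈ Ico ts T, ∃ D, HasDerivAt Q D t ∧ D ≤ -(N * v t) := by
    intro t ht
    obtain ⟨_, D, hD, hD2⟩ := h1 t ht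
    have hpos : 0 < T - t := by linarith [ht.2]
    have e1 : HasDerivAt (fun t : ℝ => T - t) (-1) t := by
      simpa using (hasDerivAt_id t).const_sub T
    have e2 : HasDerivAt (fun t : ℝ => (T - t) ^ α) ((-1) * α * (T - t) ^ (α - 1)) t :=
      e1.rpow_const (Or.inl hpos.ne')
    have e3 := hD.add (e2.const_mul (K / α))
    refine ⟨_, by rw [hQ]; exact e3, ?_⟩
    have e4 : K / α * (-1 * α * (T - t) ^ (α - 1)) = -(K * (T - t) ^ (α - 1)) := by
      field_simp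
    rw [e4]
    linarith
  have hlow : ∀ t ∈ Ico ts T, -K' ≤ Q t := by
    intro t ht
    have hpos : 0 < T - t := by linarith [ht.2]
    have h3 : 0 ≤ K / α * (T - t) ^ α := by positivity
    rw [hQ]
    show -K' ≤ L t + K / α * (T - t) ^ α
    linarith [h2 t ht]
  have hcont : ContinuousOn Q (Ico ts T) := by
    intro t ht
    obtain ⟨D, hD, _⟩ := hd t ht
    exact hD.continuousAt.continuousWithinAt
  have hanti : AntitoneOn Q (Ico ts T) := by
    refine antitoneOn_of_deriv_nonpos (convex_Ico ts T) hcont ?_ ?_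
    · intro t ht
      have ht' : t ∈ Ico ts T := interior_subset ht
      obtain ⟨D, hD, _⟩ := hd t ht'
      exact hD.differentiableAt.differentiableWithinAt
    · intro t ht
      have ht' : t ∈ Ico ts T := interior_subset ht
      obtain ⟨D, hD, hD2⟩ := hd t ht'
      rw [hD.deriv]
      have h3 := (h1 t ht').1
      have h4 : 0 ≤ N * v t := by positivity
      linarith
  -- the infimum
  obtain ⟨I, hI⟩ : ∃ I : ℝ, I = sInf (Q '' Ico ts T) := ⟨_, rfl⟩
  have hbdd : BddBelow (Q '' Ico ts T) := by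
    refine ⟨-K', ?_⟩
    rintro _ ⟨t, ht, rfl⟩
    exact hlow t ht
  have hne : (Q '' Ico ts T).Nonempty := ⟨Q ts, ts, ⟨le_refl _, hts⟩, rfl⟩
  have hIle : ∀ t ∈ Ico ts T, I ≤ Q t := by
    intro t ht
    rw [hI]
    exact csInf_le hbdd ⟨t, ht, rfl⟩
  have hex : ∃ t₁ ∈ Ico ts T, Q t₁ < I + N * δ * η := by
    have h3 : sInf (Q '' Ico ts T) < I + N * δ * η := by
      rw [← hI]
      have : 0 < N * δ * η := by positivity
      linarith
    obtain ⟨_, ⟨t₁, ht₁, rfl⟩, h4⟩ := exists_lt_of_csInf_lt hne h3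
    exact ⟨t₁, ht₁, h4⟩
  obtain ⟨t₁, ht₁, hQ1⟩ := hex
  refine ⟨(2 * t₁ + T) / 3, ⟨by linarith [ht₁.1, ht₁.2], by linarith [ht₁.2]⟩, ?_⟩
  intro t ht
  obtain ⟨s, hs⟩ : ∃ s, s = T - t := ⟨_, rfl⟩
  have hs0 : 0 < s := by rw [hs]; linarith [ht.2]
  rw [← hs]
  have hδs : 0 < δ * s := by positivity
  have hds4 : 2 * δ * s ≤ s / 2 := by nlinarith
  have ha : t₁ ≤ t - 2 * δ * s := by
    have := ht.1
    linarith
  have hb : t - δ * s < T := by
    have := ht.2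
    linarith
  have hab : t - 2 * δ * s < t - δ * s := by linarith
  have haI : t - 2 * δ * s ∈ Ico ts T := ⟨ht₁.1.trans ha, hab.trans hb⟩
  have hbI : t - δ * s ∈ Ico ts T := ⟨haI.1.trans hab.le, hb⟩
  have hsub : Icc (t - 2 * δ * s) (t - δ * s) ⊆ Ico ts T := fun y hy =>
    ⟨haI.1.trans hy.1, lt_of_le_of_lt hy.2 hb⟩
  obtain ⟨t', ht', hslope⟩ := exists_deriv_eq_slope Q hab (hcont.mono hsub) (by
    intro y hy
    obtain ⟨D, hD, _⟩ := hd y (hsub (Ioo_subset_Icc_self hy))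
    exact hD.differentiableAt.differentiableWithinAt)
  have ht'I : t' ∈ Ico ts T := hsub (Ioo_subset_Icc_self ht')
  refine ⟨t', Ioo_subset_Icc_self ht', ht'I.1, ?_⟩
  obtain ⟨D, hD, hD2⟩ := hd t' ht'I
  rw [hD.deriv] at hslope
  have h5 : Q (t - 2 * δ * s) ≤ Q t₁ := hanti ht₁ haI ha
  have h6 : I ≤ Q (t - δ * s) := hIle _ hbI
  have h7 : D * (δ * s) = Q (t - δ * s) - Q (t - 2 * δ * s) := by
    rw [hslope]
    have h8 : t - δ * s - (t - 2 * δ * s) = δ * s := by ring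
    rw [h8]
    field_simp
  have h9 : N * v t' * (δ * s) ≤ N * δ * η := by
    have h10 : D * (δ * s) ≤ -(N * v t') * (δ * s) := mul_le_mul_of_nonneg_right hD2 hδs.le
    linarith
  have h11 : (N * δ) * (s * v t') ≤ (N * δ) * η := by
    calc (N * δ) * (s * v t') = N * v t' * (δ * s) := by ring
      _ ≤ _ := h9
  exact le_of_mul_le_mul_left h11 (by positivity)

theorem hFGT (hFLD : StFLD) (hFAB : StFAB) : StFGT := by
  intro n hn M _ _ _ _ _ _ _ _ T F ν ts ε x C α c χ hD hPU δ η hδ hδ4 hη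
  obtain ⟨K, hK, h1⟩ := hFLD n hn M T F ν ts ε x C α c χ hD hPU
  obtain ⟨K', hK', h2⟩ := hFAB n hn M T F ν ts ε x C α c χ hD hPU
  have hts : ts < T := hD.d.ts0.2
  exact good_times ts T α K K' (n + 1) (lyN n F ν c χ x) (vrN n F ν c χ) hts hD.α0
    (by positivity) (fun t ht => ⟨(h1 t ht).2.2.1, (h1 t ht).2.2.2⟩) hK
    (fun t ht => (h2 t ht).2.2) δ η hδ hδ4 hη

end Helper10.HSF
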