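import Pool.Agent.Helper35.HSF.StB

/-!
# Project HSF (MP_925021_gt), module NEG: change of the sign of the normal
-/

set_option autoImplicit false

namespace Helper10.HSF

open Helper35.HSF Helper35.MS Helper35.PI Helper35.PI2 Helper32.CL
open scoped ContDiff Manifold Topology
open Set

private theorem zch_neg {N : ℕ} {M : Type} (F ν : M → ℝ → EE N) (x y : M) (t : ℝ) :
    zch F (fun q t => -ν q t) x y t = -zch F ν x y t := by
  unfold zch
  rw [inner_neg_right]
  ring

private theorem hn_neg {n N : ℕ} {M : Type} [TopologicalSpace M] [ChartedSpace (EE n) M]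
    (F ν : M → ℝ → EE N) (q : M) (t : ℝ) (c : Fin n → ℝ) :
    hn F (fun q t => -ν q t) q t c = -hn F ν q t c := by
  unfold hn
  rw [inner_neg_right]

/-- NEG: change of the sign of the normal. -/
theorem hNEG : StNEG := by
  intro n M _ _ _ F ν ν' hν
  subst hν
  refine ⟨fun J h => ?_, fun ρ t h => ?_, fun x t => ⟨?_, ?_, fun c => hn_neg F ν x t c⟩⟩
  · refine ⟨h.mcf, (contDiff_neg.contMDiff).comp_contMDiffOn h.sν, h.r0, h.sph, ?_, ?_, ?_⟩
    · intro q t ht
      rw [norm_neg]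
      exact h.nν q t ht
    · intro q t ht
      rw [inner_neg_right, h.Fν q t ht, neg_zero]
    · intro q t ht v hv
      rw [inner_neg_right, h.tν q t ht v hv, neg_zero]
  · refine ⟨h.ρ0, h.sF, (contDiff_neg.contMDiff).comp h.sν, h.im, h.nF, ?_, ?_, ?_⟩
    · intro q
      rw [norm_neg]
      exact h.nν q
    · intro q
      rw [inner_neg_right, h.Fν q, neg_zero]
    · intro q v hv
      rw [inner_neg_right, h.tν q v hv, neg_zero]
  · ext z
    constructor
    · rintro (⟨y, hy, rfl⟩ | ⟨c, hc, rfl⟩)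
      · exact ⟨zch F ν x y t, Or.inl ⟨y, hy, rfl⟩, (zch_neg F ν x y t).symm⟩
      · exact ⟨hn F ν x t c, Or.inr ⟨c, hc, rfl⟩, (hn_neg F ν x t c).symm⟩
    · rintro ⟨w, (⟨y, hy, rfl⟩ | ⟨c, hc, rfl⟩), rfl⟩
      · exact Or.inl ⟨y, hy, (zch_neg F ν x y t).symm⟩
      · exact Or.inr ⟨c, hc, (hn_neg F ν x t c).symm⟩
  · unfold Hs
    rw [inner_neg_right]

end Helper10.HSF
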