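import Pool.Agent.Helper35.HSF.StC

/-! Module SMR of the project HSF: regularity of a smooth function on the flow, its gradient and
its Laplacian. -/

set_option autoImplicit false

namespace Helper10.HSF

open Helper35.HSF Helper35.MS Helper35.PI Helper35.PI2 Helper32.CL
open scoped ContDiff Manifold Topology ENNReal BigOperators
open MeasureTheory Set Filter

section

variable {n N : ℕ} {M : Type} [TopologicalSpace M] [ChartedSpace (EE n) M]

/-- a map on `M × ℝ` in the chart of `p` -/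
private noncomputable def rff (n : ℕ) {V : Type} {M : Type} [TopologicalSpace M]
    [ChartedSpace (EE n) M] (F : M → ℝ → V) (p : M) (z : EE n × ℝ) : V :=
  F ((chartAt (EE n) p).symm z.1) z.2

/-- smoothness in a chart -/
private theorem rff_smooth [IsManifold (𝓡 n) ∞ M] {V : Type} [NormedAddCommGroup V]
    [NormedSpace ℝ V] {J : Set ℝ} (hJ : IsOpen J) {u : M → ℝ → V}
    (hu : ContMDiffOn ((𝓡 n).prod 𝓘(ℝ, ℝ)) 𝓘(ℝ, V) ∞ (fun z : M × ℝ => u z.1 z.2) (univ ×ˢ J))
    {t : ℝ} (ht : t ∈ J) (p q : M) (hq : q ∈ (chartAt (EE n) p).source) :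
    ContDiffAt ℝ ∞ (rff n u p) (chartAt (EE n) p q, t) := by
  have hpt : chartAt (EE n) p q ∈ (chartAt (EE n) p).target :=
    (chartAt (EE n) p).map_source hq
  have hleft : (chartAt (EE n) p).symm (chartAt (EE n) p q) = q :=
    (chartAt (EE n) p).left_inv hq
  have hs : ContMDiffAt 𝓘(ℝ, EE n) (𝓡 n) ∞ (chartAt (EE n) p).symm (chartAt (EE n) p q) :=
    (contMDiffOn_chart_symm (I := 𝓡 n) (n := ∞) (H := EE n) (x := p)).contMDiffAt
      ((chartAt (EE n) p).open_target.mem_nhds hpt)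
  have hfst : ContMDiffAt 𝓘(ℝ, EE n × ℝ) 𝓘(ℝ, EE n) ∞ (fun z : EE n × ℝ => z.1)
      (chartAt (EE n) p q, t) := contDiffAt_fst.contMDiffAt
  have hsnd : ContMDiffAt 𝓘(ℝ, EE n × ℝ) 𝓘(ℝ, ℝ) ∞ (fun z : EE n × ℝ => z.2)
      (chartAt (EE n) p q, t) := contDiffAt_snd.contMDiffAt
  have h1 : ContMDiffAt 𝓘(ℝ, EE n × ℝ) (𝓡 n) ∞
      (fun z : EE n × ℝ => (chartAt (EE n) p).symm z.1) (chartAt (EE n) p q, t) :=
    ContMDiffAt.comp (chartAt (EE n) p q, t) hs hfst
  have h2 : ContMDiffAt 𝓘(ℝ, EE n × ℝ) ((𝓡 n).prod 𝓘(ℝ, ℝ)) ∞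
      (fun z : EE n × ℝ => (((chartAt (EE n) p).symm z.1, z.2) : M × ℝ))
      (chartAt (EE n) p q, t) := h1.prodMk hsnd
  have h3 : ContMDiffAt ((𝓡 n).prod 𝓘(ℝ, ℝ)) 𝓘(ℝ, V) ∞ (fun z : M × ℝ => u z.1 z.2)
      ((chartAt (EE n) p).symm (chartAt (EE n) p q), t) := by
    rw [hleft]
    exact hu.contMDiffAt (prod_mem_nhds univ_mem (hJ.mem_nhds ht))
  have h4 : ContMDiffAt 𝓘(ℝ, EE n × ℝ) 𝓘(ℝ, V) ∞ (rff n u p) (chartAt (EE n) p q, t) :=
    ContMDiffAt.comp (chartAt (EE n) p q, t) h3 h2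
  exact contMDiffAt_iff_contDiffAt.mp h4

/-- continuity on space time from formulas in charts -/
private theorem cst_of {V : Type} [TopologicalSpace V] {J : Set ℝ} (hJ : IsOpen J)
    (g : M → ℝ → V)
    (G : M → EE n × ℝ → V)
    (h1 : ∀ p, ∀ q ∈ (chartAt (EE n) p).source, ∀ t ∈ J, g q t = G p (chartAt (EE n) p q, t))
    (h2 : ∀ p, ∀ t ∈ J, ContinuousAt (G p) (chartAt (EE n) p p, t)) : CSTJ J g := by
  rintro ⟨p, t⟩ ⟨_, ht⟩
  have ht' : t ∈ J := ht
  apply ContinuousAt.continuousWithinAt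
  have hp : p ∈ (chartAt (EE n) p).source := mem_chart_source (EE n) p
  have hc : ContinuousAt (fun z : M × ℝ => (chartAt (EE n) p z.1, z.2)) (p, t) := by
    have h3 : ContinuousAt (chartAt (EE n) p) p := (chartAt (EE n) p).continuousAt hp
    have h4 : ContinuousAt (fun z : M × ℝ => chartAt (EE n) p z.1) (p, t) :=
      ContinuousAt.comp (f := fun z : M × ℝ => z.1) (x := (p, t)) h3 continuousAt_fst
    exact h4.prodMk continuousAt_snd
  have hG : ContinuousAt (fun z : M × ℝ => G p (chartAt (EE n) p z.1, z.2)) (p, t) :=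
    ContinuousAt.comp (f := fun z : M × ℝ => (chartAt (EE n) p z.1, z.2)) (x := (p, t))
      (h2 p t ht') hc
  refine hG.congr ?_
  have hev : (chartAt (EE n) p).source ×ˢ J ∈ 𝓝 (p, t) :=
    prod_mem_nhds ((chartAt (EE n) p).open_source.mem_nhds hp) (hJ.mem_nhds ht')
  filter_upwards [hev] with z hz
  exact (h1 p z.1 hz.1 z.2 hz.2).symm

/-- smoothness on `M` from formulas in charts -/
private theorem cmd_of [IsManifold (𝓡 n) ∞ M] {V : Type} [NormedAddCommGroup V]
    [NormedSpace ℝ V] (g : M → V) (G : M → EE n → V)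
    (h1 : ∀ p, ∀ q ∈ (chartAt (EE n) p).source, g q = G p (chartAt (EE n) p q))
    (h2 : ∀ p, ContDiffAt ℝ ∞ (G p) (chartAt (EE n) p p)) :
    ContMDiff (𝓡 n) 𝓘(ℝ, V) ∞ g := by
  intro q
  have hq : q ∈ (chartAt (EE n) q).source := mem_chart_source (EE n) q
  have hv1 : ContMDiffAt 𝓘(ℝ, EE n) 𝓘(ℝ, V) ∞ (G q) (chartAt (EE n) q q) :=
    (h2 q).contMDiffAt
  have hc : ContMDiffAt (𝓡 n) (𝓡 n) ∞ (chartAt (EE n) q) q :=
    (contMDiffOn_chart (I := 𝓡 n) (n := ∞) (H := EE n) (x := q)).contMDiffAt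
      ((chartAt (EE n) q).open_source.mem_nhds hq)
  have h := ContMDiffAt.comp q (hv1 : ContMDiffAt (𝓡 n) 𝓘(ℝ, V) ∞ (G q)
    (chartAt (EE n) q q)) hc
  refine h.congr_of_eventuallyEq ?_
  filter_upwards [(chartAt (EE n) q).open_source.mem_nhds hq] with q' hq'
  exact h1 q q' hq'

private theorem one_le_inf' : (1 : WithTop ℕ∞) ≤ ((⊤ : ℕ∞) : WithTop ℕ∞) := by
  have : ((1 : ℕ∞) : WithTop ℕ∞) ≤ ((⊤ : ℕ∞) : WithTop ℕ∞) := WithTop.coe_le_coe.2 le_top
  exact this

/-- slices of a smooth function of space and time -/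
private theorem slice_smooth {V : Type} [NormedAddCommGroup V] [NormedSpace ℝ V]
    {G : EE n × ℝ → V} {y : EE n} {t : ℝ} (h : ContDiffAt ℝ ∞ G (y, t)) :
    ContDiffAt ℝ ∞ (fun y' => G (y', t)) y := by
  have h4 : ContDiffAt ℝ ∞ (fun y : EE n => (y, t)) y :=
    contDiffAt_id.prodMk contDiffAt_const
  exact h.comp y h4

/-- spatial derivative of a slice -/
private theorem slice_fderiv {V : Type} [NormedAddCommGroup V] [NormedSpace ℝ V]
    {G : EE n × ℝ → V} {y : EE n} {t : ℝ} (h : DifferentiableAt ℝ G (y, t)) (k : Fin n) :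
    fderiv ℝ (fun y' => G (y', t)) y (ee k) = jg G (y, t) k := by
  have h1 : HasFDerivAt (fun y' : EE n => (y', t))
      ((ContinuousLinearMap.id ℝ (EE n)).prod (0 : EE n →L[ℝ] ℝ)) y :=
    (hasFDerivAt_id y).prodMk (hasFDerivAt_const t y)
  have h2 := (h.hasFDerivAt.comp y h1).fderiv
  have h3 : (fun y' => G (y', t)) = G ∘ fun y' : EE n => (y', t) := rfl
  rw [h3, h2]
  rfl

/-- the gradient in the chart of `p` -/
private noncomputable def gdl (n : ℕ) {N : ℕ} {M : Type} [TopologicalSpace M]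
    [ChartedSpace (EE n) M] (F : M → ℝ → EE N) (u : M → ℝ → ℝ) (p : M) (z : EE n × ℝ) : EE N :=
  ∑ k, ∑ m, ((gram (fun y => rff n F p (y, z.2)) z.1)⁻¹ k m * jg (rff n u p) z k) •
    dv1 (fun y => rff n F p (y, z.2)) z.1 m

/-- the Laplacian in the chart of `p` -/
private noncomputable def lpl (n : ℕ) {N : ℕ} {M : Type} [TopologicalSpace M]
    [ChartedSpace (EE n) M] (F : M → ℝ → EE N) (u : M → ℝ → ℝ) (p : M) (z : EE n × ℝ) : ℝ :=
  ∑ i, ∑ j, (gram (fun y => rff n F p (y, z.2)) z.1)⁻¹ i j *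
    inner ℝ (jg (gdl n F u p) z i) (dv1 (fun y => rff n F p (y, z.2)) z.1 j)

private theorem jg_smooth {V : Type} [NormedAddCommGroup V] [NormedSpace ℝ V]
    {G : EE n × ℝ → V} {z : EE n × ℝ} (h : ContDiffAt ℝ ∞ G z) (k : Fin n) :
    ContDiffAt ℝ ∞ (fun z => jg G z k) z := by
  have h1 : ContDiffAt ℝ ∞ (fderiv ℝ G) z := h.fderiv_right (m := ∞) (by norm_cast)
  exact h1.clm_apply contDiffAt_const

private theorem mcv_perp (hNR : StNR) (f : EE n → EE N) (x : EE n) (hf : LI f x) :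
    nrm f x (mcv f x) = mcv f x := by
  obtain ⟨h1, _, _, h4, _⟩ := hNR n N f x hf
  apply h4
  intro i
  unfold mcv
  rw [sum_inner]
  apply Finset.sum_eq_zero
  intro a _
  rw [sum_inner]
  apply Finset.sum_eq_zero
  intro b _
  rw [inner_smul_left]
  unfold sff
  rw [h1, mul_zero]

/-- the gradient is a tangential combination -/
private theorem gdM_mem' (F : M → ℝ → EE N) (t : ℝ) (h : M → ℝ) (q : M) :
    gdM n F t h q ∈ Submodule.span ℝ
      (range fun i => dv1 (loc (n := n) F q t) (chartAt (EE n) q q) i) := by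
  unfold gdM
  apply Submodule.sum_mem
  intro k _
  apply Submodule.sum_mem
  intro m _
  apply Submodule.smul_mem
  exact Submodule.subset_span ⟨m, rfl⟩

/-- the gradient may be computed in any chart -/
private theorem gdM_chart [IsManifold (𝓡 n) ∞ M] (hV6aJ : StV6aJ) {J : Set ℝ} {F : M → ℝ → EE N}
    (hF : IsImmJ (n := n) J F) {t : ℝ} (ht : t ∈ J) (h : M → ℝ)
    (hh : ContMDiff (𝓡 n) 𝓘(ℝ, ℝ) ∞ h) (p q : M) (hq : q ∈ (chartAt (EE n) p).source) :
    gdM n F t h q = ∑ k, ∑ m, ((gram (loc (n := n) F p t) (chartAt (EE n) p q))⁻¹ k m *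
      fderiv ℝ (fun y => h ((chartAt (EE n) p).symm y)) (chartAt (EE n) p q) (ee k)) •
        dv1 (loc (n := n) F p t) (chartAt (EE n) p q) m := by
  -- the divergence of `h • e`
  have key : ∀ (e : EE N) (p : M), q ∈ (chartAt (EE n) p).source →
      dvg (n := n) F (fun q => h q • e) q t = inner ℝ e
        (∑ k, ∑ m, ((gram (loc (n := n) F p t) (chartAt (EE n) p q))⁻¹ k m *
      fderiv ℝ (fun y => h ((chartAt (EE n) p).symm y)) (chartAt (EE n) p q) (ee k)) •
        dv1 (loc (n := n) F p t) (chartAt (EE n) p q) m) := by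
    intro e p hq
    have hX : ContMDiff (𝓡 n) 𝓘(ℝ, EE N) ∞ (fun q => h q • e) := hh.smul contMDiff_const
    have h1 := hV6aJ n N M J F hF t ht (fun q => h q • e) p q
      ((hX q).of_le one_le_inf') hq
    rw [h1, inner_sum]
    refine Finset.sum_congr rfl fun i _ => ?_
    rw [inner_sum]
    refine Finset.sum_congr rfl fun j _ => ?_
    have hpt : chartAt (EE n) p q ∈ (chartAt (EE n) p).target :=
      (chartAt (EE n) p).map_source hq
    have hs : ContMDiffAt (𝓡 n) (𝓡 n) ∞ (chartAt (EE n) p).symm (chartAt (EE n) p q) :=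
      (contMDiffOn_chart_symm (I := 𝓡 n) (n := ∞) (H := EE n) (x := p)).contMDiffAt
        ((chartAt (EE n) p).open_target.mem_nhds hpt)
    have h2 : ContMDiffAt (𝓡 n) 𝓘(ℝ, ℝ) ∞ (h ∘ (chartAt (EE n) p).symm)
        (chartAt (EE n) p q) := ContMDiffAt.comp (chartAt (EE n) p q) (hh _) hs
    have h3 : ContDiffAt ℝ ∞ (fun y => h ((chartAt (EE n) p).symm y)) (chartAt (EE n) p q) :=
      contMDiffAt_iff_contDiffAt.mp h2
    have h4 : DifferentiableAt ℝ (fun y => h ((chartAt (EE n) p).symm y))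
        (chartAt (EE n) p q) := h3.differentiableAt (by simp)
    have h5 : HasFDerivAt (fun y => h ((chartAt (EE n) p).symm y) • e)
        ((fderiv ℝ (fun y => h ((chartAt (EE n) p).symm y)) (chartAt (EE n) p q)).smulRight e)
        (chartAt (EE n) p q) := h4.hasFDerivAt.smul_const e
    have h6 : fderiv ℝ (fun y => h ((chartAt (EE n) p).symm y) • e) (chartAt (EE n) p q) (ee i)
        = fderiv ℝ (fun y => h ((chartAt (EE n) p).symm y)) (chartAt (EE n) p q) (ee i) • e := by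
      rw [h5.fderiv]
      rfl
    show _ * inner ℝ (fderiv ℝ (fun y => h ((chartAt (EE n) p).symm y) • e)
      (chartAt (EE n) p q) (ee i)) _ = _
    rw [h6, real_inner_smul_left, real_inner_smul_right]
    ring
  refine ext_inner_left ℝ fun e => ?_
  rw [← key e p hq]
  exact (key e q (mem_chart_source (EE n) q)).symm

end

set_option linter.unusedVariables false in
/-- Module SMR. -/
theorem hSMR (hI2J : StI2J) (hI3J : StI3J) (hFR : StFR) (hSM : Helper35.PI.StSM)
    (hV6aJ : StV6aJ) (hNR : StNR) : StSMR := by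
  intro n N M _ _ _ J F hF u hu
  have hself : ∀ q : M, q ∈ (chartAt (EE n) q).source := fun q => mem_chart_source (EE n) q
  -- smoothness in charts
  have sF : ∀ (p q : M) (t : ℝ), t ∈ J → q ∈ (chartAt (EE n) p).source →
      ContDiffAt ℝ ∞ (rff n F p) (chartAt (EE n) p q, t) := fun p q t ht hq =>
    rff_smooth hF.op hF.smooth ht p q hq
  have su : ∀ (p q : M) (t : ℝ), t ∈ J → q ∈ (chartAt (EE n) p).source →
      ContDiffAt ℝ ∞ (rff n u p) (chartAt (EE n) p q, t) := fun p q t ht hq =>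
    rff_smooth hF.op hu ht p q hq
  have hLI : ∀ (p q : M) (t : ℝ), t ∈ J → q ∈ (chartAt (EE n) p).source →
      LI (fun y => rff n F p (y, t)) (chartAt (EE n) p q) := fun p q t ht hq =>
    (hI3J n N M J F hF p q t ht hq).1
  have hut : ∀ t ∈ J, ContMDiff (𝓡 n) 𝓘(ℝ, ℝ) ∞ (fun q => u q t) := by
    intro t ht
    have h1 : ContMDiff (𝓡 n) ((𝓡 n).prod 𝓘(ℝ, ℝ)) ∞ (fun q : M => ((q, t) : M × ℝ)) :=
      contMDiff_id.prodMk contMDiff_const
    have h2 : ContMDiffOn (𝓡 n) 𝓘(ℝ, ℝ) ∞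
        ((fun z : M × ℝ => u z.1 z.2) ∘ fun q : M => ((q, t) : M × ℝ)) univ :=
      hu.comp h1.contMDiffOn (fun q _ => ⟨mem_univ _, ht⟩)
    exact contMDiffOn_univ.1 h2
  -- inverse metric and tangent vectors
  have sG : ∀ (p q : M) (t : ℝ), t ∈ J → q ∈ (chartAt (EE n) p).source →
      (∀ i j, ContDiffAt ℝ ∞ (fun z : EE n × ℝ =>
        (gram (fun y => rff n F p (y, z.2)) z.1)⁻¹ i j) (chartAt (EE n) p q, t)) ∧
      ∀ i, ContDiffAt ℝ ∞ (fun z : EE n × ℝ => dv1 (fun y => rff n F p (y, z.2)) z.1 i)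
        (chartAt (EE n) p q, t) := by
    intro p q t ht hq
    have h := hSM n N (rff n F p) (chartAt (EE n) p q, t) (sF p q t ht hq) (hLI p q t ht hq)
    refine ⟨h.2.2.2.2.2.1, fun i => ?_⟩
    refine (h.2.1 i).congr_of_eventuallyEq ?_
    filter_upwards [h.1] with z hz
    exact hz.2.2.1 i
  have sgd : ∀ (p q : M) (t : ℝ), t ∈ J → q ∈ (chartAt (EE n) p).source →
      ContDiffAt ℝ ∞ (gdl n F u p) (chartAt (EE n) p q, t) := by
    intro p q t ht hq
    obtain ⟨h1, h2⟩ := sG p q t ht hq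
    exact ContDiffAt.sum fun k _ => ContDiffAt.sum fun m _ =>
      ((h1 k m).mul (jg_smooth (su p q t ht hq) k)).smul (h2 m)
  have slp : ∀ (p q : M) (t : ℝ), t ∈ J → q ∈ (chartAt (EE n) p).source →
      ContDiffAt ℝ ∞ (lpl n F u p) (chartAt (EE n) p q, t) := by
    intro p q t ht hq
    obtain ⟨h1, h2⟩ := sG p q t ht hq
    exact ContDiffAt.sum fun i _ => ContDiffAt.sum fun j _ =>
      (h1 i j).mul ((jg_smooth (sgd p q t ht hq) i).inner ℝ (h2 j))
  -- the gradient in charts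
  have egd : ∀ (p q : M) (t : ℝ), t ∈ J → q ∈ (chartAt (EE n) p).source →
      gdM n F t (fun q => u q t) q = gdl n F u p (chartAt (EE n) p q, t) := by
    intro p q t ht hq
    rw [gdM_chart hV6aJ hF ht _ (hut t ht) p q hq]
    unfold gdl
    refine Finset.sum_congr rfl fun k _ => Finset.sum_congr rfl fun m _ => ?_
    congr 2
    exact slice_fderiv ((su p q t ht hq).differentiableAt (by simp)) k
  have cgd : ∀ t ∈ J, ContMDiff (𝓡 n) 𝓘(ℝ, EE N) ∞ (gdM n F t (fun q => u q t)) := by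
    intro t ht
    refine cmd_of _ (fun p y => gdl n F u p (y, t)) (fun p q hq => egd p q t ht hq)
      (fun p => ?_)
    exact slice_smooth (sgd p p t ht (hself p))
  -- the Laplacian in charts
  have elp : ∀ (p q : M) (t : ℝ), t ∈ J → q ∈ (chartAt (EE n) p).source →
      lapN n F u q t = lpl n F u p (chartAt (EE n) p q, t) := by
    intro p q t ht hq
    unfold lapN
    rw [hV6aJ n N M J F hF t ht _ p q ((cgd t ht q).of_le one_le_inf') hq]
    unfold lpl
    refine Finset.sum_congr rfl fun i _ => Finset.sum_congr rfl fun j _ => ?_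
    have hpt : chartAt (EE n) p q ∈ (chartAt (EE n) p).target :=
      (chartAt (EE n) p).map_source hq
    have he : (fun y => gdM n F t (fun q => u q t) ((chartAt (EE n) p).symm y))
        =ᶠ[𝓝 (chartAt (EE n) p q)] (fun y => gdl n F u p (y, t)) := by
      filter_upwards [(chartAt (EE n) p).open_target.mem_nhds hpt] with y hy
      have h2 := egd p ((chartAt (EE n) p).symm y) t ht ((chartAt (EE n) p).map_target hy)
      rw [(chartAt (EE n) p).right_inv hy] at h2
      exact h2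
    rw [he.fderiv_eq, slice_fderiv ((sgd p q t ht hq).differentiableAt (by simp)) i]
    rfl
  -- time derivative
  have hder : ∀ (p q : M) (t : ℝ), t ∈ J → q ∈ (chartAt (EE n) p).source →
      HasDerivAt (fun s => u q s) (jt (rff n u p) (chartAt (EE n) p q, t)) t := by
    intro p q t ht hq
    have h1 : HasFDerivAt (rff n u p) (fderiv ℝ (rff n u p) (chartAt (EE n) p q, t))
        (chartAt (EE n) p q, t) :=
      ((su p q t ht hq).differentiableAt (by simp)).hasFDerivAt
    have h2 : HasDerivAt (fun s : ℝ => ((chartAt (EE n) p q, s) : EE n × ℝ)) (0, 1) t :=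
      (hasDerivAt_const t (chartAt (EE n) p q)).prodMk (hasDerivAt_id t)
    have h3 := h1.comp_hasDerivAt t h2
    have h4 : (rff n u p ∘ fun s : ℝ => ((chartAt (EE n) p q, s) : EE n × ℝ))
        = fun s => u q s := by
      funext s
      show u ((chartAt (EE n) p).symm (chartAt (EE n) p q)) s = u q s
      rw [(chartAt (EE n) p).left_inv hq]
    rw [h4] at h3
    exact h3
  have cdt : CSTJ J (fun q t => deriv (fun s => u q s) t) := by
    refine cst_of hF.op _ (fun p => jt (rff n u p))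
      (fun p q hq t ht => (hder p q t ht hq).deriv) (fun p t ht => ?_)
    have h1 : ContDiffAt ℝ 0 (fderiv ℝ (rff n u p)) (chartAt (EE n) p p, t) :=
      (su p p t ht (hself p)).fderiv_right (m := 0) (by simp)
    exact (h1.continuousAt).clm_apply continuousAt_const
  have clp : CSTJ J (fun q t => lapN n F u q t) := by
    refine cst_of hF.op _ (fun p => lpl n F u p) (fun p q hq t ht => elp p q t ht hq)
      (fun p t ht => ?_)
    exact (slp p p t ht (hself p)).continuousAt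
  refine ⟨fun t ht => ⟨hut t ht, cgd t ht⟩, ?_, cdt, ?_, clp, ?_, ?_, ?_⟩
  · exact hu.continuousOn
  · intro q t ht
    have := hder q q t ht (hself q)
    rw [this.deriv]
    exact this
  · exact ContinuousOn.sub cdt clp
  · refine cst_of hF.op _ (fun p => gdl n F u p) (fun p q hq t ht => egd p q t ht hq)
      (fun p t ht => ?_)
    exact (sgd p p t ht (hself p)).continuousAt
  · intro t ht q
    have hmem := gdM_mem' (n := n) F t (fun q => u q t) q
    refine ⟨hmem, ?_⟩
    have hli : LI (loc (n := n) F q t) (chartAt (EE n) q q) := hF.imm q t ht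
    obtain ⟨h1, h2, h3, h4, h5, h6, h7, h8⟩ :=
      hNR n N (loc (n := n) F q t) (chartAt (EE n) q q) hli
    have h9 : HH (n := n) F q t = nrm (loc (n := n) F q t) (chartAt (EE n) q q)
        (mcv (loc (n := n) F q t) (chartAt (EE n) q q)) := (mcv_perp hNR _ _ hli).symm
    rw [h9, h7, h2 _ hmem, inner_zero_right]

end Helper10.HSF
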